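import Pool.Agent.Helper29.BL.GoalsA
import Pool.Agent.Helper29.BL.PS

/-!
# Project BL (MP_a41896_nt), packet CL
-/

namespace Pool.Agent.Helper74.BL

open WeierstrassCurve Polynomial Pool.Agent.Helper29.BL
open scoped Polynomial.Bivariate

noncomputable section

section alg

variable {F : Type} [Field F] (W : Affine F)

theorem alg1 (a c e e' : F) (h1 : Uf c a * (e' + e) = Tf W c a) (h2 : Uf c a * (e' * e) = Sf W c a) :
    (a - c) ^ 2 * ((a - e) * (a - e')) = Af W a - c * Bf W a := by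
  unfold Uf Tf Sf at *
  unfold Af Bf
  linear_combination (-a) * h1 + h2

theorem alg2 (a c e e' : F) (h1 : Uf c a * (e' + e) = Tf W c a) (h2 : Uf c a * (e' * e) = Sf W c a) :
    (a - c) ^ 4 * (e - e') ^ 2 = Bf W a * Bf W c := by
  have h3 := W.b_relation
  unfold Uf Tf Sf at *
  unfold Bf
  linear_combination ((a - c) ^ 2 * (e' + e) + (2 * (a + c) * (a * c) + W.b₂ * (a * c) + W.b₄ * (a + c) + W.b₆)) * h1
    - 4 * (a - c) ^ 2 * h2 + (a - c) ^ 2 * h3

end alg

section abs

variable {K : Type} [Field K] (v : AbsoluteValue K ℝ) (W : Affine K)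

theorem b2_le : v W.b₂ ≤ bet W v := (le_max_left _ _).trans (le_max_right _ _)

theorem b4_le : v W.b₄ ≤ bet W v :=
  (le_max_left _ _).trans ((le_max_right _ _).trans (le_max_right _ _))

theorem b6_le : v W.b₆ ≤ bet W v :=
  (le_max_left _ _).trans ((le_max_right _ _).trans ((le_max_right _ _).trans (le_max_right _ _)))

theorem b8_le : v W.b₈ ≤ bet W v :=
  (le_max_right _ _).trans ((le_max_right _ _).trans ((le_max_right _ _).trans (le_max_right _ _)))

theorem v_two : v 2 ≤ 2 := by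
  have h := v.add_le 1 1
  rw [map_one] at h
  norm_num at h
  exact h

theorem v_four : v 4 ≤ 4 := by
  have h := v.add_le 2 2
  have h2 := v_two v
  have h3 : (2 : K) + 2 = 4 := by norm_num
  rw [h3] at h
  linarith

/-- `|A(a)| ≤ 5 β M^4` if `|a| ≤ M`, `1 ≤ M`. -/
theorem A_le (a : K) (M : ℝ) (hM : 1 ≤ M) (ha : v a ≤ M) : v (Af W a) ≤ 5 * bet W v * M ^ 4 := by
  have hβ := one_le_bet W v
  have hM0 : 0 ≤ M := by linarith
  have ha0 := v.nonneg a
  have h1 : v (a ^ 4) ≤ M ^ 4 := by rw [map_pow]; exact pow_le_pow_left₀ ha0 ha 4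
  have e1 : M ^ 2 ≤ M ^ 4 := pow_le_pow_right₀ hM (by norm_num)
  have e2 : M ≤ M ^ 4 := by simpa using pow_le_pow_right₀ hM (show 1 ≤ 4 by norm_num)
  have e3 : 1 ≤ M ^ 4 := one_le_pow₀ hM
  have h2 : v (W.b₄ * a ^ 2) ≤ bet W v * M ^ 4 := by
    rw [map_mul, map_pow]
    exact mul_le_mul (b4_le v W) ((pow_le_pow_left₀ ha0 ha 2).trans e1) (pow_nonneg ha0 2) (by linarith)
  have h3 : v (2 * W.b₆ * a) ≤ 2 * bet W v * M ^ 4 := by
    rw [map_mul, map_mul]
    exact mul_le_mul (mul_le_mul (v_two v) (b6_le v W) (v.nonneg _) (by norm_num)) (ha.trans e2) ha0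
      (by positivity)
  have h4 : v W.b₈ ≤ bet W v * M ^ 4 := by
    calc v W.b₈ ≤ bet W v * 1 := by rw [mul_one]; exact b8_le v W
      _ ≤ _ := mul_le_mul_of_nonneg_left e3 (by linarith)
  have h5 : M ^ 4 ≤ bet W v * M ^ 4 := le_mul_of_one_le_left (by positivity) hβ
  unfold Af
  have i1 := v.sub_le_add (a ^ 4) (W.b₄ * a ^ 2)
  have i2 := v.sub_le_add (a ^ 4 - W.b₄ * a ^ 2) (2 * W.b₆ * a)
  have i3 := v.sub_le_add (a ^ 4 - W.b₄ * a ^ 2 - 2 * W.b₆ * a) W.b₈
  linarith

/-- `|B(a)| ≤ 8 β M^3` if `|a| ≤ M`, `1 ≤ M`. -/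
theorem B_le (a : K) (M : ℝ) (hM : 1 ≤ M) (ha : v a ≤ M) : v (Bf W a) ≤ 8 * bet W v * M ^ 3 := by
  have hβ := one_le_bet W v
  have hM0 : 0 ≤ M := by linarith
  have ha0 := v.nonneg a
  have e1 : M ^ 2 ≤ M ^ 3 := pow_le_pow_right₀ hM (by norm_num)
  have e2 : M ≤ M ^ 3 := by simpa using pow_le_pow_right₀ hM (show 1 ≤ 3 by norm_num)
  have e3 : 1 ≤ M ^ 3 := one_le_pow₀ hM
  have h1 : v (4 * a ^ 3) ≤ 4 * M ^ 3 := by
    rw [map_mul, map_pow]
    exact mul_le_mul (v_four v) (pow_le_pow_left₀ ha0 ha 3) (pow_nonneg ha0 3) (by norm_num)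
  have h2 : v (W.b₂ * a ^ 2) ≤ bet W v * M ^ 3 := by
    rw [map_mul, map_pow]
    exact mul_le_mul (b2_le v W) ((pow_le_pow_left₀ ha0 ha 2).trans e1) (pow_nonneg ha0 2) (by linarith)
  have h3 : v (2 * W.b₄ * a) ≤ 2 * bet W v * M ^ 3 := by
    rw [map_mul, map_mul]
    exact mul_le_mul (mul_le_mul (v_two v) (b4_le v W) (v.nonneg _) (by norm_num)) (ha.trans e2) ha0
      (by positivity)
  have h4 : v W.b₆ ≤ bet W v * M ^ 3 := by
    calc v W.b₆ ≤ bet W v * 1 := by rw [mul_one]; exact b6_le v W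
      _ ≤ _ := mul_le_mul_of_nonneg_left e3 (by linarith)
  have h5 : M ^ 3 ≤ bet W v * M ^ 3 := le_mul_of_one_le_left (by positivity) hβ
  unfold Bf
  have i1 := v.add_le (4 * a ^ 3) (W.b₂ * a ^ 2)
  have i2 := v.add_le (4 * a ^ 3 + W.b₂ * a ^ 2) (2 * W.b₄ * a)
  have i3 := v.add_le (4 * a ^ 3 + W.b₂ * a ^ 2 + 2 * W.b₄ * a) W.b₆
  linarith

variable {v}

theorem na_sub (hv : IsNonarchimedean v) (x y : K) : v (x - y) ≤ max (v x) (v y) := by
  have h := hv x (-y)
  rwa [← sub_eq_add_neg, v.map_neg] at h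

theorem na_two (hv : IsNonarchimedean v) : v 2 ≤ 1 := by
  have h := hv 1 1
  rw [map_one, max_self] at h
  norm_num at h
  exact h

theorem na_four (hv : IsNonarchimedean v) : v 4 ≤ 1 := by
  have h := hv 2 2
  have h3 : (2 : K) + 2 = 4 := by norm_num
  rw [h3, max_self] at h
  exact h.trans (na_two hv)

theorem na_A_le (hv : IsNonarchimedean v) (a : K) (M : ℝ) (hM : 1 ≤ M) (ha : v a ≤ M) :
    v (Af W a) ≤ bet W v * M ^ 4 := by
  have hβ := one_le_bet W v
  have ha0 := v.nonneg a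
  have e1 : M ^ 2 ≤ M ^ 4 := pow_le_pow_right₀ hM (by norm_num)
  have e2 : M ≤ M ^ 4 := by simpa using pow_le_pow_right₀ hM (show 1 ≤ 4 by norm_num)
  have e3 : 1 ≤ M ^ 4 := one_le_pow₀ hM
  have h5 : M ^ 4 ≤ bet W v * M ^ 4 := le_mul_of_one_le_left (by positivity) hβ
  have h1 : v (a ^ 4) ≤ bet W v * M ^ 4 := by
    rw [map_pow]; exact (pow_le_pow_left₀ ha0 ha 4).trans h5
  have h2 : v (W.b₄ * a ^ 2) ≤ bet W v * M ^ 4 := by
    rw [map_mul, map_pow]
    exact mul_le_mul (b4_le v W) ((pow_le_pow_left₀ ha0 ha 2).trans e1) (pow_nonneg ha0 2) (by linarith)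
  have h3 : v (2 * W.b₆ * a) ≤ bet W v * M ^ 4 := by
    rw [map_mul, map_mul]
    refine mul_le_mul ?_ (ha.trans e2) ha0 (by linarith)
    calc v 2 * v W.b₆ ≤ 1 * bet W v := mul_le_mul (na_two hv) (b6_le v W) (v.nonneg _) (by norm_num)
      _ = _ := one_mul _
  have h4 : v W.b₈ ≤ bet W v * M ^ 4 := by
    calc v W.b₈ ≤ bet W v * 1 := by rw [mul_one]; exact b8_le v W
      _ ≤ _ := mul_le_mul_of_nonneg_left e3 (by linarith)
  unfold Af
  exact (na_sub hv _ _).trans (max_le ((na_sub hv _ _).trans (max_le ((na_sub hv _ _).trans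
    (max_le h1 h2)) h3)) h4)

theorem na_B_le (hv : IsNonarchimedean v) (a : K) (M : ℝ) (hM : 1 ≤ M) (ha : v a ≤ M) :
    v (Bf W a) ≤ bet W v * M ^ 3 := by
  have hβ := one_le_bet W v
  have ha0 := v.nonneg a
  have e1 : M ^ 2 ≤ M ^ 3 := pow_le_pow_right₀ hM (by norm_num)
  have e2 : M ≤ M ^ 3 := by simpa using pow_le_pow_right₀ hM (show 1 ≤ 3 by norm_num)
  have e3 : 1 ≤ M ^ 3 := one_le_pow₀ hM
  have h5 : M ^ 3 ≤ bet W v * M ^ 3 := le_mul_of_one_le_left (by positivity) hβ
  have h1 : v (4 * a ^ 3) ≤ bet W v * M ^ 3 := by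
    rw [map_mul, map_pow]
    calc v 4 * v a ^ 3 ≤ 1 * M ^ 3 :=
          mul_le_mul (na_four hv) (pow_le_pow_left₀ ha0 ha 3) (pow_nonneg ha0 3) (by norm_num)
      _ ≤ _ := by rw [one_mul]; exact h5
  have h2 : v (W.b₂ * a ^ 2) ≤ bet W v * M ^ 3 := by
    rw [map_mul, map_pow]
    exact mul_le_mul (b2_le v W) ((pow_le_pow_left₀ ha0 ha 2).trans e1) (pow_nonneg ha0 2) (by linarith)
  have h3 : v (2 * W.b₄ * a) ≤ bet W v * M ^ 3 := by
    rw [map_mul, map_mul]
    refine mul_le_mul ?_ (ha.trans e2) ha0 (by linarith)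
    calc v 2 * v W.b₄ ≤ 1 * bet W v := mul_le_mul (na_two hv) (b4_le v W) (v.nonneg _) (by norm_num)
      _ = _ := one_mul _
  have h4 : v W.b₆ ≤ bet W v * M ^ 3 := by
    calc v W.b₆ ≤ bet W v * 1 := by rw [mul_one]; exact b6_le v W
      _ ≤ _ := mul_le_mul_of_nonneg_left e3 (by linarith)
  unfold Bf
  exact (hv _ _).trans (max_le ((hv _ _).trans (max_le ((hv _ _).trans (max_le h1 h2)) h3)) h4)

end abs

/-- The real inequality behind the archimedean case. -/
theorem real_arch {β M γ x p q r : ℝ} (hβ : 1 ≤ β) (hM : 1 ≤ M) (hγ0 : 0 < γ) (hx : γ / 2 ≤ x)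
    (hp : 0 ≤ p) (hq : 0 ≤ q) (h1 : x ^ 2 * (p * q) ≤ 13 * β * M ^ 3 * γ)
    (h2 : x ^ 4 * r ^ 2 ≤ 64 * β ^ 2 * M ^ 3 * γ ^ 3) (h3 : p ^ 2 ≤ p * r + p * q) :
    p ^ 2 * γ ≤ 1128 * β ^ 2 * M ^ 3 := by
  have hM3 : 0 < M ^ 3 := by positivity
  have k1 : p * q * γ ≤ 52 * β * M ^ 3 := by
    have h4 : (γ / 2) ^ 2 * (p * q) ≤ 13 * β * M ^ 3 * γ :=
      (mul_le_mul_of_nonneg_right (pow_le_pow_left₀ (by positivity) hx 2) (mul_nonneg hp hq)).trans h1
    have h5 : γ * (p * q * γ) ≤ γ * (52 * β * M ^ 3) := by nlinarith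
    exact le_of_mul_le_mul_left h5 hγ0
  have k2 : r ^ 2 * γ ≤ 1024 * β ^ 2 * M ^ 3 := by
    have h4 : (γ / 2) ^ 4 * r ^ 2 ≤ 64 * β ^ 2 * M ^ 3 * γ ^ 3 :=
      (mul_le_mul_of_nonneg_right (pow_le_pow_left₀ (by positivity) hx 4) (sq_nonneg r)).trans h2
    have h5 : γ ^ 3 * (r ^ 2 * γ) ≤ γ ^ 3 * (1024 * β ^ 2 * M ^ 3) := by
      have h6 : (γ / 2) ^ 4 * r ^ 2 = γ ^ 3 * (r ^ 2 * γ) / 16 := by ring
      rw [h6] at h4
      nlinarith
    exact le_of_mul_le_mul_left h5 (by positivity)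
  have k3 : p ^ 2 ≤ r ^ 2 + 2 * (p * q) := by nlinarith [sq_nonneg (p - r)]
  have k4 : p ^ 2 * γ ≤ (r ^ 2 + 2 * (p * q)) * γ := mul_le_mul_of_nonneg_right k3 hγ0.le
  have k5 : β * M ^ 3 ≤ β ^ 2 * M ^ 3 := by
    have : β ≤ β ^ 2 := by nlinarith
    exact mul_le_mul_of_nonneg_right this hM3.le
  nlinarith

theorem two_pow_le {b : ℝ} (hb : 1 ≤ b) (n : ℕ) : b ^ 2 ≤ b ^ (n + 2) := pow_le_pow_right₀ hb (by omega)

theorem cl_of : ADD → DBL → TRI → CL := by
  intro hADD _ hTRI
  obtain ⟨CT, nT, hCT, hT⟩ := hTRI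
  refine ⟨25600 * CT, nT + 2, by linarith, ?_⟩
  intro K _ _ v W P R hP hR hPR
  have hβ := one_le_bet W v
  set β := bet W v with hβdef
  set a := xc P with ha
  set c := xc R with hc
  set e := xc (P - R) with he
  have hMa := one_le_Mv v a
  have hMc := one_le_Mv v c
  have hMe := one_le_Mv v e
  have hva : v a ≤ Mv v a := le_max_right _ _
  have hve : v e ≤ Mv v e := le_max_right _ _
  have hcase : ∀ θ : ℝ, 1 ≤ θ → θ * Mv v a < Mv v c → v c = Mv v c ∧ c ≠ a ∧
      ∃ e' : K, Uf c a * (e' + e) = Tf W c a ∧ Uf c a * (e' * e) = Sf W c a := by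
    intro θ hθ hlt
    have h1 : Mv v a < Mv v c := lt_of_le_of_lt (le_mul_of_one_le_left (by linarith) hθ) hlt
    have h2 : v c = Mv v c := by
      unfold Mv at h1 ⊢
      rcases le_total (v c) 1 with h | h
      · rw [max_eq_left h] at h1
        exact absurd h1 (not_lt.2 (le_max_left _ _))
      · rw [max_eq_right h]
    have h3 : c ≠ a := by
      intro h
      rw [h] at h1
      exact lt_irrefl _ h1
    refine ⟨h2, h3, ?_⟩
    have hPR' : P ≠ -R := by
      intro h
      apply h3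
      rw [hc, ha, h]
      cases R with
      | zero => rfl
      | some x y hxy => rfl
    obtain ⟨-, h4, h5⟩ := hADD K W P R hP hR hPR hPR'
    exact ⟨xc (P + R), h4, h5⟩
  have hTR := hT K v W P R hP hR hPR
  by_cases hv : IsNonarchimedean v
  · rw [cst_of_nonarch hv, one_mul] at hTR ⊢
    by_cases hlt : β ^ 2 * Mv v a < Mv v c
    · obtain ⟨hvc, hca, e', h1, h2⟩ := hcase (β ^ 2) (one_le_pow₀ hβ) hlt
      have i1 := alg1 W a c e e' h1 h2
      have i2 := alg2 W a c e e' h1 h2
      set M := Mv v a with hM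
      set γ := v c with hγ
      have hγM : β ^ 2 * M < γ := by rw [hvc]; exact hlt
      have hMγ : M < γ := lt_of_le_of_lt (le_mul_of_one_le_left (by linarith) (one_le_pow₀ hβ)) hγM
      have hγ0 : 0 < γ := by linarith
      have hac : v (a - c) = γ := by
        have h3 : v a < v c := lt_of_le_of_lt hva hMγ
        apply le_antisymm
        · exact (na_sub hv a c).trans (max_le h3.le le_rfl)
        · have h4 := na_sub hv a (a - c)
          rw [sub_sub_cancel] at h4
          rcases le_max_iff.1 h4 with h5 | h5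
          · exact absurd h3 (not_lt.2 h5)
          · exact h5
      have j1 := congrArg v i1
      have j2 := congrArg v i2
      rw [map_mul, map_mul, map_pow, hac] at j1
      rw [map_mul, map_mul, map_pow, map_pow, hac] at j2
      have bA : v (Af W a) ≤ β * M ^ 3 * γ := by
        calc v (Af W a) ≤ β * M ^ 4 := na_A_le W hv a M hMa hva
          _ = β * M ^ 3 * M := by ring
          _ ≤ _ := mul_le_mul_of_nonneg_left hMγ.le (by positivity)
      have bB : v (c * Bf W a) ≤ β * M ^ 3 * γ := by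
        rw [map_mul, mul_comm]
        exact mul_le_mul_of_nonneg_right (na_B_le W hv a M hMa hva) hγ0.le
      have k1 : v (a - e) * v (a - e') * γ ≤ β * M ^ 3 := by
        have h4 : γ ^ 2 * (v (a - e) * v (a - e')) ≤ β * M ^ 3 * γ := by
          rw [j1]
          exact (na_sub hv _ _).trans (max_le bA bB)
        have h5 : γ * (v (a - e) * v (a - e') * γ) ≤ γ * (β * M ^ 3) := by
          calc γ * (v (a - e) * v (a - e') * γ) = γ ^ 2 * (v (a - e) * v (a - e')) := by ring
            _ ≤ β * M ^ 3 * γ := h4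
            _ = _ := by ring
        exact le_of_mul_le_mul_left h5 hγ0
      have k2 : v (e - e') ^ 2 * γ ≤ β ^ 2 * M ^ 3 := by
        have h4 : γ ^ 4 * v (e - e') ^ 2 ≤ β * M ^ 3 * (β * γ ^ 3) := by
          rw [j2]
          exact mul_le_mul (na_B_le W hv a M hMa hva) (na_B_le W hv c γ (by linarith) le_rfl) (v.nonneg _)
            (by positivity)
        have h5 : γ ^ 3 * (v (e - e') ^ 2 * γ) ≤ γ ^ 3 * (β ^ 2 * M ^ 3) := by
          calc γ ^ 3 * (v (e - e') ^ 2 * γ) = γ ^ 4 * v (e - e') ^ 2 := by ring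
            _ ≤ _ := h4
            _ = _ := by ring
        exact le_of_mul_le_mul_left h5 (by positivity)
      have hββ : β * M ^ 3 ≤ β ^ 2 * M ^ 3 := by
        have : β ≤ β ^ 2 := by nlinarith
        exact mul_le_mul_of_nonneg_right this (by positivity)
      have k3 : v (a - e) ^ 2 * γ ≤ β ^ 2 * M ^ 3 := by
        have h4 : v (a - e) ≤ max (v (e - e')) (v (a - e')) := by
          have h5 := na_sub hv (a - e') (e - e')
          rw [show a - e' - (e - e') = a - e by ring, max_comm] at h5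
          exact h5
        rcases le_max_iff.1 h4 with h5 | h5
        · exact (mul_le_mul_of_nonneg_right (pow_le_pow_left₀ (v.nonneg _) h5 2) hγ0.le).trans k2
        · refine le_trans ?_ (k1.trans hββ)
          rw [pow_two]
          exact mul_le_mul_of_nonneg_right (mul_le_mul_of_nonneg_left h5 (v.nonneg _)) hγ0.le
      have k4 : v (a - e) < M := by
        by_contra h
        push Not at h
        have h5 : M ^ 2 * γ ≤ β ^ 2 * M ^ 3 :=
          (mul_le_mul_of_nonneg_right (pow_le_pow_left₀ (by linarith) h 2) hγ0.le).trans k3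
        have h6 : M ^ 2 * (β ^ 2 * M) < M ^ 2 * γ := mul_lt_mul_of_pos_left hγM (by positivity)
        nlinarith
      have k5 : M ≤ Mv v e := by
        by_contra h
        push Not at h
        have h5 : 1 < M := lt_of_le_of_lt hMe h
        have h6 : v a = M := by
          rw [hM]
          unfold Mv at hM h5 ⊢
          rw [hM] at h5
          rcases le_total (v a) 1 with h7 | h7
          · rw [max_eq_left h7] at h5
            exact absurd h5 (lt_irrefl _)
          · rw [max_eq_right h7]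
        have h7 := na_sub hv (a - e) (-e)
        rw [show a - e - -e = a by ring, v.map_neg, h6] at h7
        rcases le_max_iff.1 h7 with h8 | h8
        · exact absurd k4 (not_lt.2 h8)
        · exact absurd h (not_lt.2 (h8.trans hve))
      rw [← hvc]
      have k6 : M ≤ Mv v e ^ 2 := k5.trans (by nlinarith)
      calc v (a - e) ^ 2 * γ ≤ β ^ 2 * M ^ 3 := k3
        _ = β ^ 2 * (M ^ 2 * M) := by ring
        _ ≤ β ^ 2 * (M ^ 2 * Mv v e ^ 2) := by gcongr
        _ ≤ β ^ (nT + 2) * (M ^ 2 * Mv v e ^ 2) :=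
          mul_le_mul_of_nonneg_right (two_pow_le hβ nT) (by positivity)
    · push Not at hlt
      have h1 : v (a - e) ≤ max (Mv v a) (Mv v e) := (na_sub hv a e).trans (max_le_max hva hve)
      have h0 : 1 ≤ β ^ 2 := one_le_pow₀ hβ
      have h2 : Mv v c ≤ β ^ (nT + 2) * min (Mv v a) (Mv v e) ^ 2 := by
        have h3 : Mv v c ≤ β ^ (nT + 2) * Mv v a := hlt.trans
          (mul_le_mul_of_nonneg_right (two_pow_le hβ nT) (by linarith))
        have h4 : Mv v c ≤ β ^ (nT + 2) * Mv v e := by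
          have h5 : Mv v c ≤ β ^ 2 * min (Mv v a) (Mv v c) := by
            rcases min_choice (Mv v a) (Mv v c) with h | h <;> rw [h]
            · exact hlt
            · exact le_mul_of_one_le_left (by linarith) h0
          calc Mv v c ≤ β ^ 2 * min (Mv v a) (Mv v c) := h5
            _ ≤ β ^ 2 * (β ^ nT * Mv v e) := mul_le_mul_of_nonneg_left hTR (by positivity)
            _ = _ := by ring
        have h5 : (1 : ℝ) ≤ min (Mv v a) (Mv v e) := le_min hMa hMe
        have h6 : Mv v c ≤ β ^ (nT + 2) * min (Mv v a) (Mv v e) := by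
          rcases min_choice (Mv v a) (Mv v e) with h | h <;> rw [h] <;> assumption
        refine h6.trans (mul_le_mul_of_nonneg_left ?_ (by positivity))
        nlinarith
      calc v (a - e) ^ 2 * Mv v c ≤
            max (Mv v a) (Mv v e) ^ 2 * (β ^ (nT + 2) * min (Mv v a) (Mv v e) ^ 2) :=
          mul_le_mul (pow_le_pow_left₀ (v.nonneg _) h1 2) h2 (by linarith) (by positivity)
        _ = β ^ (nT + 2) * (max (Mv v a) (Mv v e) * min (Mv v a) (Mv v e)) ^ 2 := by ring
        _ = _ := by rw [max_mul_min]; ring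
  · rw [cst_of_not_nonarch hv] at hTR ⊢
    by_cases hlt : 6400 * β ^ 2 * Mv v a < Mv v c
    · obtain ⟨hvc, hca, e', h1, h2⟩ := hcase (6400 * β ^ 2) (by nlinarith [one_le_pow₀ hβ (n := 2)]) hlt
      have i1 := alg1 W a c e e' h1 h2
      have i2 := alg2 W a c e e' h1 h2
      set M := Mv v a with hM
      set γ := v c with hγ
      have hββ1 : 1 ≤ β ^ 2 := one_le_pow₀ hβ
      have hγM : 6400 * β ^ 2 * M < γ := by rw [hvc]; exact hlt
      have hMγ : 6400 * M < γ := by nlinarith
      have hγ0 : 0 < γ := by linarith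
      have hac : γ / 2 ≤ v (a - c) := by
        have h4 := v.sub_le_add a (a - c)
        rw [sub_sub_cancel] at h4
        linarith
      have j1 := congrArg v i1
      have j2 := congrArg v i2
      rw [map_mul, map_mul, map_pow] at j1
      rw [map_mul, map_mul, map_pow, map_pow] at j2
      have bA : v (Af W a) ≤ 5 * β * M ^ 3 * γ := by
        calc v (Af W a) ≤ 5 * β * M ^ 4 := A_le v W a M hMa hva
          _ = 5 * β * M ^ 3 * M := by ring
          _ ≤ _ := mul_le_mul_of_nonneg_left (by linarith) (by positivity)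
      have bB : v (c * Bf W a) ≤ 8 * β * M ^ 3 * γ := by
        rw [map_mul, mul_comm]
        exact mul_le_mul_of_nonneg_right (B_le v W a M hMa hva) hγ0.le
      have k3 : v (a - e) ^ 2 * γ ≤ 1128 * β ^ 2 * M ^ 3 := by
        refine real_arch (x := v (a - c)) (q := v (a - e')) (r := v (e - e')) hβ hMa hγ0 hac (v.nonneg _)
          (v.nonneg _) ?_ ?_ ?_
        · rw [j1]
          have := v.sub_le_add (Af W a) (c * Bf W a)
          linarith
        · rw [j2]
          calc v (Bf W a) * v (Bf W c) ≤ (8 * β * M ^ 3) * (8 * β * γ ^ 3) :=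
                mul_le_mul (B_le v W a M hMa hva) (B_le v W c γ (by linarith) le_rfl) (v.nonneg _)
                  (by positivity)
            _ = _ := by ring
        · have h5 := v.sub_le_add (a - e') (e - e')
          rw [show a - e' - (e - e') = a - e by ring] at h5
          have h6 := v.nonneg (a - e)
          nlinarith
      have k4 : v (a - e) ≤ M / 2 := by
        by_contra h
        push Not at h
        have h5 : (M / 2) ^ 2 * γ ≤ 1128 * β ^ 2 * M ^ 3 :=
          (mul_le_mul_of_nonneg_right (pow_le_pow_left₀ (by linarith) h.le 2) hγ0.le).trans k3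
        have h6 : (M / 2) ^ 2 * (6400 * β ^ 2 * M) < (M / 2) ^ 2 * γ :=
          mul_lt_mul_of_pos_left hγM (by positivity)
        have h7 : 0 < β ^ 2 * M ^ 3 := by positivity
        nlinarith
      have k5 : M ≤ 2 * Mv v e := by
        by_contra h
        push Not at h
        have h5 : 1 < M := by linarith
        have h6 : v a = M := by
          rw [hM]
          unfold Mv at hM h5 ⊢
          rw [hM] at h5
          rcases le_total (v a) 1 with h7 | h7
          · rw [max_eq_left h7] at h5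
            exact absurd h5 (lt_irrefl _)
          · rw [max_eq_right h7]
        have h7 := v.sub_le_add (a - e) (-e)
        rw [show a - e - -e = a by ring, v.map_neg, h6] at h7
        linarith
      rw [← hvc]
      have k6 : M ≤ 2 * Mv v e ^ 2 := k5.trans (by nlinarith)
      calc v (a - e) ^ 2 * γ ≤ 1128 * β ^ 2 * M ^ 3 := k3
        _ = 1128 * β ^ 2 * (M ^ 2 * M) := by ring
        _ ≤ 1128 * β ^ 2 * (M ^ 2 * (2 * Mv v e ^ 2)) := by gcongr
        _ = 2256 * (β ^ 2 * (M ^ 2 * Mv v e ^ 2)) := by ring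
        _ ≤ (25600 * CT) * (β ^ (nT + 2) * (M ^ 2 * Mv v e ^ 2)) := by
          refine mul_le_mul (by linarith) (mul_le_mul_of_nonneg_right (two_pow_le hβ nT) (by positivity))
            (by positivity) (by linarith)
        _ = _ := by ring
    · push Not at hlt
      have h1 : v (a - e) ≤ 2 * max (Mv v a) (Mv v e) := by
        have h2 := v.sub_le_add a e
        have h3 := le_max_left (Mv v a) (Mv v e)
        have h4 := le_max_right (Mv v a) (Mv v e)
        linarith
      have h0 : 1 ≤ β ^ 2 := one_le_pow₀ hβ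
      have hCT0 : 0 < CT := by linarith
      have h2 : Mv v c ≤ 6400 * CT * β ^ (nT + 2) * min (Mv v a) (Mv v e) ^ 2 := by
        have h3 : Mv v c ≤ 6400 * CT * β ^ (nT + 2) * Mv v a := by
          refine hlt.trans (mul_le_mul_of_nonneg_right ?_ (by linarith))
          have h4 := two_pow_le hβ nT
          nlinarith [pow_pos (show 0 < β by linarith) (nT + 2)]
        have h4 : Mv v c ≤ 6400 * CT * β ^ (nT + 2) * Mv v e := by
          have h5 : Mv v c ≤ 6400 * β ^ 2 * min (Mv v a) (Mv v c) := by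
            rcases min_choice (Mv v a) (Mv v c) with h | h <;> rw [h]
            · exact hlt
            · exact le_mul_of_one_le_left (by linarith) (by linarith)
          calc Mv v c ≤ 6400 * β ^ 2 * min (Mv v a) (Mv v c) := h5
            _ ≤ 6400 * β ^ 2 * (CT * β ^ nT * Mv v e) := mul_le_mul_of_nonneg_left hTR (by positivity)
            _ = _ := by ring
        have h5 : (1 : ℝ) ≤ min (Mv v a) (Mv v e) := le_min hMa hMe
        have h6 : Mv v c ≤ 6400 * CT * β ^ (nT + 2) * min (Mv v a) (Mv v e) := by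
          rcases min_choice (Mv v a) (Mv v e) with h | h <;> rw [h] <;> assumption
        refine h6.trans (mul_le_mul_of_nonneg_left ?_ (by positivity))
        nlinarith
      calc v (a - e) ^ 2 * Mv v c ≤
            (2 * max (Mv v a) (Mv v e)) ^ 2 * (6400 * CT * β ^ (nT + 2) * min (Mv v a) (Mv v e) ^ 2) :=
          mul_le_mul (pow_le_pow_left₀ (v.nonneg _) h1 2) h2 (by linarith) (by positivity)
        _ = 25600 * CT * β ^ (nT + 2) * (max (Mv v a) (Mv v e) * min (Mv v a) (Mv v e)) ^ 2 := by ring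
        _ = _ := by rw [max_mul_min]; ring

end

end Pool.Agent.Helper74.BL
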